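import Mathlib

open Complex Set Metric

namespace Pool.Agent.Q9.MZ

/-- One-sided two-constants estimate. -/
theorem slit {F : ℂ → ℂ} {s0 ε : ℂ} {κ M V l : ℝ} (hε : ‖ε‖ = 1) (hκ : 0 < κ)
    (hF : ∀ s ∈ ball s0 (2 * κ), DifferentiableAt ℂ F s)
    (hM : ∀ s ∈ ball s0 (2 * κ), ‖F s‖ ≤ M)
    (hV : ∀ u ∈ Icc (0 : ℝ) κ, ‖F (s0 + ε * u)‖ ≤ V) (hV0 : 0 < V)
    (hl : M ≤ V * Real.exp l) (hl0 : 0 ≤ l) {z : ℂ} (hz : ‖z‖ ≤ 1 / 2) (hzi : 0 ≤ z.im) :
    ‖F (s0 + ε * κ * z ^ 2)‖ ≤ V * Real.exp (4 * l * ‖z‖) := by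
  set U : Set ℂ := Ioo (-1 : ℝ) 1 ×ℂ Ioo (0 : ℝ) (1 / 2) with hU
  set E : ℂ → ℂ := fun z => cexp (-(4 / 3 * l) * (z ^ 2 - 2 * I * z)) with hE
  set H : ℂ → ℂ := fun z => F (s0 + ε * κ * z ^ 2) * E z with hH
  have hcl : closure U = Icc (-1 : ℝ) 1 ×ℂ Icc (0 : ℝ) (1 / 2) := by
    rw [hU, closure_reProdIm, closure_Ioo (by norm_num), closure_Ioo (by norm_num)]
  have hfr : frontier U = (Icc (-1 : ℝ) 1 ×ℂ {0, 1 / 2}) ∪ ({-1, 1} ×ℂ Icc (0 : ℝ) (1 / 2)) := by
    rw [hU, frontier_reProdIm, closure_Ioo (by norm_num), closure_Ioo (by norm_num),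
      frontier_Ioo (by norm_num), frontier_Ioo (by norm_num)]
  have hball : ∀ w : ℂ, w ∈ closure U → s0 + ε * κ * w ^ 2 ∈ ball s0 (2 * κ) := by
    intro w hw
    rw [hcl, mem_reProdIm] at hw
    rw [mem_ball, dist_eq_norm, add_sub_cancel_left, norm_mul, norm_mul, hε, one_mul,
      Complex.norm_real, Real.norm_eq_abs, abs_of_pos hκ, norm_pow, ← Complex.normSq_eq_norm_sq,
      Complex.normSq_apply]
    have h1 : w.re * w.re ≤ 1 := by
      have := abs_le.mpr ⟨hw.1.1, hw.1.2⟩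
      nlinarith [abs_mul_abs_self w.re, abs_nonneg w.re]
    have h2 : w.im * w.im ≤ 1 / 4 := by nlinarith [hw.2.1, hw.2.2]
    nlinarith
  have hEn : ∀ w : ℂ, ‖E w‖ = Real.exp (-(4 / 3 * l) * (w.re ^ 2 - w.im ^ 2 + 2 * w.im)) := by
    intro w
    rw [hE, Complex.norm_exp]
    congr 1
    simp [pow_two]
    try (left; ring)
  have hVM : ∀ w : ℂ, w ∈ closure U → 3 / 4 ≤ w.re ^ 2 - w.im ^ 2 + 2 * w.im → ‖H w‖ ≤ V := by
    intro w hw h
    rw [hH]
    simp only
    rw [norm_mul, hEn]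
    have h1 := hM _ (hball w hw)
    calc _ ≤ (V * Real.exp l) * Real.exp (-l) := by
          apply mul_le_mul (h1.trans hl) _ (Real.exp_pos _).le (by positivity)
          apply Real.exp_le_exp.mpr
          nlinarith
      _ = V := by rw [mul_assoc, ← Real.exp_add]; simp
  have hd : DiffContOnCl ℂ H U := by
    apply DifferentiableOn.diffContOnCl
    intro w hw
    apply DifferentiableAt.differentiableWithinAt
    apply DifferentiableAt.mul
    · have h1 := hF _ (hball w hw)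
      exact DifferentiableAt.comp w h1 (by fun_prop)
    · rw [hE]; fun_prop
  have hbd : Bornology.IsBounded U :=
    Bornology.IsBounded.reProdIm (isBounded_Ioo _ _) (isBounded_Ioo _ _)
  have hmain : ∀ w ∈ frontier U, ‖H w‖ ≤ V := by
    intro w hw
    have hwc : w ∈ closure U := frontier_subset_closure hw
    rw [hfr] at hw
    rcases hw with hw | hw
    · rw [mem_reProdIm] at hw
      rcases hw.2 with h0 | h0
      · -- bottom
        have hwr : w = (w.re : ℂ) := by
          apply Complex.ext <;> simp [h0]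
        rw [hH]
        simp only
        rw [norm_mul, hEn, h0]
        have h2 : ‖F (s0 + ε * κ * w ^ 2)‖ ≤ V := by
          have := hV (κ * w.re ^ 2) ⟨by positivity, by
            have h3 : w.re ^ 2 ≤ 1 := by
              have := abs_le.mpr ⟨hw.1.1, hw.1.2⟩
              rw [← sq_abs]; nlinarith [abs_nonneg w.re]
            nlinarith⟩
          rw [hwr]
          convert this using 3
          push_cast
          ring_nf
          try simp
        calc _ ≤ V * 1 := by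
              apply mul_le_mul h2 _ (Real.exp_pos _).le hV0.le
              rw [Real.exp_le_one_iff]
              have : 0 ≤ w.re ^ 2 := sq_nonneg _
              nlinarith
          _ = V := mul_one V
      · apply hVM w hwc
        rw [mem_singleton_iff] at h0
        rw [h0]; nlinarith [sq_nonneg w.re]
    · rw [mem_reProdIm] at hw
      apply hVM w hwc
      have : w.re ^ 2 = 1 := by
        rcases hw.1 with h | h
        · rw [h]; norm_num
        · rw [mem_singleton_iff] at h; rw [h]; norm_num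
      rw [this]
      nlinarith [hw.2.1, hw.2.2]
  have hzc : z ∈ closure U := by
    rw [hcl, mem_reProdIm]
    have h1 := (abs_re_le_norm z).trans hz
    have h2 := (abs_im_le_norm z).trans hz
    rw [abs_le] at h1 h2
    exact ⟨⟨by linarith, by linarith⟩, ⟨hzi, h2.2⟩⟩
  have h := Complex.norm_le_of_forall_mem_frontier_norm_le hbd hd hmain hzc
  rw [hH] at h
  simp only at h
  rw [norm_mul, hEn] at h
  set u := z.re ^ 2 - z.im ^ 2 + 2 * z.im with hu
  have hu3 : u ≤ 3 * ‖z‖ := by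
    have h1 : z.re ^ 2 + z.im ^ 2 = ‖z‖ ^ 2 := by
      rw [← Complex.normSq_eq_norm_sq, Complex.normSq_apply]; ring
    have h2 := (le_abs_self _).trans (abs_im_le_norm z)
    have h3 := norm_nonneg z
    nlinarith [sq_nonneg z.im]
  have h5 : ‖F (s0 + ε * κ * z ^ 2)‖ ≤ V * Real.exp (4 / 3 * l * u) := by
    have h6 : ‖F (s0 + ε * κ * z ^ 2)‖ * Real.exp (-(4 / 3 * l) * u) * Real.exp (4 / 3 * l * u)
        ≤ V * Real.exp (4 / 3 * l * u) := mul_le_mul_of_nonneg_right h (Real.exp_pos _).le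
    rwa [mul_assoc, ← Real.exp_add, show -(4 / 3 * l) * u + 4 / 3 * l * u = 0 by ring,
      Real.exp_zero, mul_one] at h6
  refine h5.trans (mul_le_mul_of_nonneg_left (Real.exp_le_exp.mpr ?_) hV0.le)
  nlinarith [norm_nonneg z]

/-- Derivatives at the end point of a segment. -/
theorem slit_deriv {F : ℂ → ℂ} {s0 ε : ℂ} {κ M V l : ℝ} (hε : ‖ε‖ = 1) (hκ : 0 < κ)
    (hF : ∀ s ∈ ball s0 (2 * κ), DifferentiableAt ℂ F s)
    (hM : ∀ s ∈ ball s0 (2 * κ), ‖F s‖ ≤ M)
    (hV : ∀ u ∈ Icc (0 : ℝ) κ, ‖F (s0 + ε * u)‖ ≤ V) (hV0 : 0 < V)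
    (hl : M ≤ V * Real.exp l) (hl0 : 2 ≤ l) (m : ℕ) :
    ‖iteratedDeriv m F s0‖ ≤ m.factorial * (V * Real.exp 4) / (κ / l ^ 2) ^ m := by
  have hl1 : 0 < l := by linarith
  have hr : 0 < κ / l ^ 2 := by positivity
  have hr2 : κ / l ^ 2 < 2 * κ := by
    rw [div_lt_iff₀ (by positivity)]
    have h1 : 1 < l ^ 2 := by nlinarith
    nlinarith [mul_pos hκ (sub_pos.mpr h1)]
  apply Complex.norm_iteratedDeriv_le_of_forall_mem_sphere_norm_le m hr
  · apply DifferentiableOn.diffContOnCl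
    intro s hs
    apply DifferentiableAt.differentiableWithinAt
    apply hF
    exact (Metric.closure_ball_subset_closedBall.trans (closedBall_subset_ball hr2)) hs
  · intro s hs
    have hε0 : ε ≠ 0 := by intro h; rw [h] at hε; simp at hε
    have hκ0 : (κ : ℂ) ≠ 0 := by exact_mod_cast hκ.ne'
    obtain ⟨w, hw⟩ := IsAlgClosed.exists_pow_nat_eq ((s - s0) / (ε * κ)) (n := 2) (by norm_num)
    obtain ⟨z, hz, hzi⟩ : ∃ z : ℂ, z ^ 2 = (s - s0) / (ε * κ) ∧ 0 ≤ z.im := by
      rcases le_total 0 w.im with h | h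
      · exact ⟨w, hw, h⟩
      · exact ⟨-w, by rw [neg_sq, hw], by simpa using h⟩
    have hzn : ‖z‖ = 1 / l := by
      have h1 : ‖z‖ ^ 2 = (1 / l) ^ 2 := by
        rw [← norm_pow, hz, norm_div, norm_mul, hε, mem_sphere_iff_norm.mp hs, one_mul,
          Complex.norm_real, Real.norm_eq_abs, abs_of_pos hκ]
        field_simp
      exact (sq_eq_sq₀ (norm_nonneg z) (by positivity)).mp h1
    have h2 := slit hε hκ hF hM hV hV0 hl hl1.le (z := z) (by
      rw [hzn]; exact one_div_le_one_div_of_le (by norm_num) hl0) hzi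
    have h3 : s0 + ε * κ * z ^ 2 = s := by
      rw [hz]; field_simp; ring
    rw [h3, hzn] at h2
    convert h2 using 3
    field_simp

/-- Maximum principle on a rectangle with a Gaussian weight. -/
theorem rect {g : ℂ → ℂ} {x1 v p q h W C M a : ℝ} (hp : 0 ≤ p) (hq : 0 < q) (hh : 0 < h)
    (ha : 0 ≤ a) (hW : 0 ≤ W) (hC : 0 ≤ C) (hM : 0 ≤ M)
    (hg : ∀ s : ℂ, s.re ∈ Icc (x1 - p) (x1 + q) → s.im ∈ Icc (v - h) (v + h) →
      DifferentiableAt ℂ g s)
    (hl : ∀ s : ℂ, s.re = x1 - p → s.im ∈ Icc (v - h) (v + h) → ‖g s‖ ≤ W)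
    (hr : ∀ s : ℂ, s.re = x1 + q → s.im ∈ Icc (v - h) (v + h) → ‖g s‖ ≤ C)
    (ht : ∀ s : ℂ, s.re ∈ Icc (x1 - p) (x1 + q) → s.im ∈ Icc (v - h) (v + h) → ‖g s‖ ≤ M) :
    ‖g (x1 + v * I)‖ ≤ W * Real.exp (p ^ 2 + a * p) + C * Real.exp (q ^ 2 - a * q)
      + M * Real.exp (p ^ 2 + q ^ 2 + a * p - h ^ 2) := by
  set U : Set ℂ := Ioo (x1 - p) (x1 + q) ×ℂ Ioo (v - h) (v + h) with hU
  set s1 : ℂ := x1 + v * I with hs1
  set E : ℂ → ℂ := fun z => cexp ((z - s1) ^ 2 + a * (s1 - z)) with hE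
  set H : ℂ → ℂ := fun z => g z * E z with hH
  have hne1 : x1 - p ≠ x1 + q := by intro h; linarith
  have hne2 : v - h ≠ v + h := by intro h; linarith
  have hcl : closure U = Icc (x1 - p) (x1 + q) ×ℂ Icc (v - h) (v + h) := by
    rw [hU, closure_reProdIm, closure_Ioo hne1, closure_Ioo hne2]
  have hfr : frontier U = (Icc (x1 - p) (x1 + q) ×ℂ {v - h, v + h}) ∪
      ({x1 - p, x1 + q} ×ℂ Icc (v - h) (v + h)) := by
    rw [hU, frontier_reProdIm, closure_Ioo hne1, closure_Ioo hne2,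
      frontier_Ioo (by linarith), frontier_Ioo (by linarith)]
  have hEn : ∀ w : ℂ, ‖E w‖ = Real.exp ((w.re - x1) ^ 2 - (w.im - v) ^ 2 + a * (x1 - w.re)) := by
    intro w
    rw [hE, Complex.norm_exp]
    congr 1
    simp [pow_two, hs1]
  set B := W * Real.exp (p ^ 2 + a * p) + C * Real.exp (q ^ 2 - a * q)
      + M * Real.exp (p ^ 2 + q ^ 2 + a * p - h ^ 2) with hB
  have hB1 : 0 ≤ W * Real.exp (p ^ 2 + a * p) := by positivity
  have hB2 : 0 ≤ C * Real.exp (q ^ 2 - a * q) := by positivity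
  have hB3 : 0 ≤ M * Real.exp (p ^ 2 + q ^ 2 + a * p - h ^ 2) := by positivity
  have hd : DiffContOnCl ℂ H U := by
    apply DifferentiableOn.diffContOnCl
    intro w hw
    rw [hcl, mem_reProdIm] at hw
    apply DifferentiableAt.differentiableWithinAt
    apply DifferentiableAt.mul (hg w hw.1 hw.2)
    rw [hE]; fun_prop
  have hbd : Bornology.IsBounded U :=
    Bornology.IsBounded.reProdIm (isBounded_Ioo _ _) (isBounded_Ioo _ _)
  have hmain : ∀ w ∈ frontier U, ‖H w‖ ≤ B := by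
    intro w hw
    rw [hfr] at hw
    rcases hw with hw | hw
    · rw [mem_reProdIm] at hw
      have h1 : ‖g w‖ ≤ M := ht w hw.1 (by
        rcases hw.2 with h0 | h0
        · rw [h0]; constructor <;> linarith
        · rw [mem_singleton_iff] at h0; rw [h0]; constructor <;> linarith)
      have h2 : (w.im - v) ^ 2 = h ^ 2 := by
        rcases hw.2 with h0 | h0
        · rw [h0]; ring
        · rw [mem_singleton_iff] at h0; rw [h0]; ring
      have h3 : ‖H w‖ ≤ M * Real.exp (p ^ 2 + q ^ 2 + a * p - h ^ 2) := by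
        rw [hH]; simp only
        rw [norm_mul, hEn, h2]
        apply mul_le_mul h1 _ (Real.exp_pos _).le hM
        apply Real.exp_le_exp.mpr
        have h4 := hw.1.1
        have h5 := hw.1.2
        have h6 : a * (x1 - w.re) ≤ a * p := mul_le_mul_of_nonneg_left (by linarith) ha
        have h7 : (w.re - x1) ^ 2 ≤ p ^ 2 + q ^ 2 := by
          rcases le_total w.re x1 with h8 | h8
          · nlinarith [sq_nonneg q]
          · nlinarith [sq_nonneg p]
        linarith
      linarith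
    · rw [mem_reProdIm] at hw
      rcases hw.1 with h0 | h0
      · have h3 : ‖H w‖ ≤ W * Real.exp (p ^ 2 + a * p) := by
          rw [hH]; simp only
          rw [norm_mul, hEn, h0]
          apply mul_le_mul (hl w h0 hw.2) _ (Real.exp_pos _).le hW
          apply Real.exp_le_exp.mpr
          nlinarith [sq_nonneg (w.im - v)]
        linarith
      · rw [mem_singleton_iff] at h0
        have h3 : ‖H w‖ ≤ C * Real.exp (q ^ 2 - a * q) := by
          rw [hH]; simp only
          rw [norm_mul, hEn, h0]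
          apply mul_le_mul (hr w h0 hw.2) _ (Real.exp_pos _).le hC
          apply Real.exp_le_exp.mpr
          nlinarith [sq_nonneg (w.im - v)]
        linarith
  have hzc : s1 ∈ closure U := by
    rw [hcl, mem_reProdIm]
    simp only [hs1]
    refine ⟨?_, ?_⟩
    · simp; constructor <;> linarith
    · simp; linarith
  have hfin := Complex.norm_le_of_forall_mem_frontier_norm_le hbd hd hmain hzc
  rw [hH] at hfin
  simp only at hfin
  rw [norm_mul, hEn] at hfin
  simpa [hs1] using hfin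

/-- Finite differences. -/
theorem fd (m : ℕ) : ∀ (φ : ℕ → ℝ → ℂ) (h W B : ℝ), 0 ≤ h → 0 ≤ B →
    (∀ k, ∀ u ∈ Icc 0 (m * h), HasDerivAt (φ k) (φ (k + 1) u) u) →
    (∀ u ∈ Icc 0 (m * h), ‖φ m u‖ ≤ W) →
    (∀ j : ℕ, 1 ≤ j → j ≤ m → ‖φ 0 (j * h)‖ ≤ B) →
    ‖φ 0 0‖ ≤ h ^ m * W + 3 ^ m * B := by
  induction m with
  | zero =>
    intro φ h W B _ hB _ hW _
    have := hW 0 (by simp)
    simp only [pow_zero, one_mul]
    linarith
  | succ m ih =>
    intro φ h W B hh hB hd hW hj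
    have hW0 : 0 ≤ W := (norm_nonneg _).trans (hW 0 ⟨le_rfl, by positivity⟩)
    have hsub : ∀ u ∈ Icc 0 (m * h), u ∈ Icc 0 (((m + 1 : ℕ) : ℝ) * h) ∧
        u + h ∈ Icc 0 (((m + 1 : ℕ) : ℝ) * h) := by
      intro u hu
      have h1 := hu.1
      have h2 := hu.2
      push_cast
      refine ⟨⟨h1, by nlinarith⟩, ⟨by linarith, by nlinarith⟩⟩
    have key := ih (fun k u => φ k (u + h) - φ k u) h (h * W) (2 * B) hh (by linarith) ?_ ?_ ?_
    · simp only [zero_add] at key
      have h1 : ‖φ 0 h‖ ≤ B := by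
        have := hj 1 le_rfl (by omega)
        simpa using this
      have h2 : ‖φ 0 0‖ ≤ ‖φ 0 h‖ + ‖φ 0 h - φ 0 0‖ := by
        have := norm_sub_norm_le (φ 0 0) (φ 0 h)
        rw [norm_sub_rev] at this
        linarith
      have h3 : (1:ℝ) ≤ 3 ^ m := one_le_pow₀ (by norm_num)
      calc ‖φ 0 0‖ ≤ B + (h ^ m * (h * W) + 3 ^ m * (2 * B)) := by linarith
        _ ≤ h ^ (m + 1) * W + 3 ^ (m + 1) * B := by
          rw [pow_succ, pow_succ]
          nlinarith [mul_le_mul_of_nonneg_right h3 hB]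
    · intro k u hu
      obtain ⟨h1, h2⟩ := hsub u hu
      exact ((hd k _ h2).comp_add_const u h).sub (hd k u h1)
    · intro u hu
      obtain ⟨h1, h2⟩ := hsub u hu
      have h3 := Convex.norm_image_sub_le_of_norm_hasDerivWithin_le (f := φ m)
        (f' := φ (m + 1)) (C := W) (s := Icc 0 (((m + 1 : ℕ) : ℝ) * h)) (x := u) (y := u + h)
        (fun x hx => (hd m x hx).hasDerivWithinAt) (fun x hx => hW x hx) (convex_Icc _ _) h1 h2
      simp only [add_sub_cancel_left, Real.norm_eq_abs, abs_of_nonneg hh] at h3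
      linarith
    · intro j hj1 hj2
      have h1 := hj j hj1 (by omega)
      have h2 := hj (j + 1) (by omega) (by omega)
      push_cast at h2
      rw [add_mul, one_mul] at h2
      exact (norm_sub_le _ _).trans (by linarith)

end Pool.Agent.Q9.MZ
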