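import Mathlib
import Pool.Agent.H388LH.ZG
import Pool.Agent.Q9.MZ.A

open Complex Set Metric LSeries

namespace Pool.Agent.Q9.MZ

/-- the derivatives of zeta -/
noncomputable abbrev Z (m : ℕ) (s : ℂ) : ℂ := iteratedDeriv m riemannZeta s

theorem zeta_analyticAt {s : ℂ} (hs : s ≠ 1) : AnalyticAt ℂ riemannZeta s := by
  have h : DifferentiableOn ℂ riemannZeta {1}ᶜ := fun z hz =>
    (differentiableAt_riemannZeta hz).differentiableWithinAt
  exact h.analyticAt (isOpen_compl_singleton.mem_nhds hs)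

theorem hasDeriv (m : ℕ) {s : ℂ} (hs : s ≠ 1) : HasDerivAt (Z m) (Z (m + 1) s) s := by
  have h1 : AnalyticAt ℂ (Z m) s := by
    have := (zeta_analyticAt hs).iterated_deriv m
    rwa [← iteratedDeriv_eq_iterate] at this
  have h2 := h1.differentiableAt.hasDerivAt
  rwa [show deriv (Z m) s = Z (m + 1) s by simp [Z, iteratedDeriv_succ]] at h2

theorem coef (m n : ℕ) : (logMul^[m] (1 : ℕ → ℂ)) n = (Complex.log n) ^ m := by
  induction m with
  | zero => simp
  | succ m ih =>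
    rw [Function.iterate_succ', Function.comp_apply, logMul, ih, pow_succ]
    ring

theorem absc (m : ℕ) : abscissaOfAbsConv (logMul^[m] (1 : ℕ → ℂ)) = 1 := by
  rw [LSeries.absicssaOfAbsConv_logPowMul]
  exact LSeries.abscissaOfAbsConv_one

theorem ds (m : ℕ) {s : ℂ} (hs : 1 < s.re) :
    Z m s = (-1) ^ m * LSeries (logMul^[m] 1) s := by
  have h1 : riemannZeta =ᶠ[nhds s] LSeries 1 := by
    have : {z : ℂ | 1 < z.re} ∈ nhds s :=
      (isOpen_lt continuous_const Complex.continuous_re).mem_nhds hs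
    filter_upwards [this] with z hz
    exact (LSeries_one_eq_riemannZeta hz).symm
  rw [Z, h1.iteratedDeriv_eq]
  apply LSeries_iteratedDeriv
  rw [LSeries.abscissaOfAbsConv_one]
  exact_mod_cast hs

theorem summ (m : ℕ) {s : ℂ} (hs : 1 < s.re) :
    Summable (fun n => ‖term (logMul^[m] (1 : ℕ → ℂ)) s n‖) := by
  apply Summable.norm
  apply LSeriesSummable_of_abscissaOfAbsConv_lt_re
  rw [absc]
  exact_mod_cast hs

/-- the sum of the absolute values at `s = 2` -/
noncomputable def S (m : ℕ) : ℝ := ∑' n, ‖term (logMul^[m] (1 : ℕ → ℂ)) 2 n‖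

theorem S_nonneg (m : ℕ) : 0 ≤ S m := tsum_nonneg fun _ => norm_nonneg _

theorem upperR (m : ℕ) {s : ℂ} (hs : 2 ≤ s.re) : ‖Z m s‖ ≤ S m := by
  rw [ds m (by linarith), norm_mul, norm_pow, norm_neg, norm_one, one_pow, one_mul, LSeries]
  refine (norm_tsum_le_tsum_norm (summ m (by linarith))).trans ?_
  apply Summable.tsum_le_tsum _ (summ m (by linarith)) (summ m (by simp))
  intro n
  apply norm_term_le_of_re_le_re
  simpa using hs

theorem lowerR (m N : ℕ) : ∃ k : ℕ, N ≤ k ∧ ∃ c : ℝ, 0 < c ∧ ∀ s : ℂ, s.re = 2 + k →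
    c ≤ ‖Z m s‖ := by
  obtain ⟨n0, hn0, ht0, hz⟩ : ∃ n0 : ℕ, 1 ≤ n0 ∧ (Complex.log n0) ^ m ≠ 0 ∧
      ∀ n : ℕ, n ≠ 0 → n < n0 → (Complex.log n) ^ m = 0 := by
    rcases Nat.eq_zero_or_pos m with h | h
    · refine ⟨1, le_rfl, by simp [h], fun n h1 h2 => by omega⟩
    · refine ⟨2, by norm_num, ?_, ?_⟩
      · apply pow_ne_zero
        rw [← Complex.natCast_log]
        have := Real.log_pos (show (1:ℝ) < 2 by norm_num)
        exact_mod_cast this.ne'
      · intro n h1 h2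
        have : n = 1 := by omega
        rw [this]
        simp [h.ne']
  have hn0' : (0 : ℝ) < n0 := by exact_mod_cast hn0
  set t := ‖term (logMul^[m] (1 : ℕ → ℂ)) 2 n0‖ with ht
  have htp : 0 < t := by
    rw [ht, norm_pos_iff, term_of_ne_zero (by omega), coef]
    apply div_ne_zero ht0
    rw [Complex.cpow_ne_zero_iff]
    left
    exact_mod_cast (by omega : n0 ≠ 0)
  have hb1 : (n0 : ℝ) / (n0 + 1) < 1 := by
    rw [div_lt_one (by positivity)]; linarith
  have hb0 : 0 ≤ (n0 : ℝ) / (n0 + 1) := by positivity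
  have hS := S_nonneg m
  obtain ⟨k', hk'⟩ := exists_pow_lt_of_lt_one (show 0 < t / (S m + 1) by positivity) hb1
  refine ⟨max k' N, le_max_right _ _, ?_⟩
  set k := max k' N with hk
  have hk2 : ((n0 : ℝ) / (n0 + 1)) ^ k < t / (S m + 1) :=
    (pow_le_pow_of_le_one hb0 hb1.le (le_max_left _ _)).trans_lt hk'
  have hpos : 0 < t / (n0:ℝ) ^ k - S m / ((n0:ℝ) + 1) ^ k := by
    rw [sub_pos, div_lt_div_iff₀ (by positivity) (by positivity)]
    rw [div_pow, div_lt_div_iff₀ (by positivity) (by positivity)] at hk2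
    have : 0 < (n0:ℝ) ^ k := by positivity
    nlinarith
  refine ⟨_, hpos, ?_⟩
  intro s hs
  have hs1 : 1 < s.re := by
    rw [hs]
    have : (0:ℝ) ≤ k := Nat.cast_nonneg _
    linarith
  have hterm : ∀ n : ℕ, ‖term (logMul^[m] (1 : ℕ → ℂ)) s n‖ =
      ‖term (logMul^[m] (1 : ℕ → ℂ)) 2 n‖ / (n:ℝ) ^ k := by
    intro n
    rcases Nat.eq_zero_or_pos n with h | h
    · simp [h]
    · have hn : (0:ℝ) < n := by exact_mod_cast h
      rw [norm_term_eq, norm_term_eq, if_neg h.ne', if_neg h.ne', hs, div_div]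
      congr 1
      rw [Real.rpow_add hn, Real.rpow_natCast]
      simp
  have hsum := summ m hs1
  rw [ds m hs1, norm_mul, norm_pow, norm_neg, norm_one, one_pow, one_mul, LSeries,
    (hsum.of_norm).tsum_eq_add_tsum_ite n0]
  have h1 : ‖∑' n, ite (n = n0) 0 (term (logMul^[m] (1 : ℕ → ℂ)) s n)‖ ≤
      S m / ((n0:ℝ) + 1) ^ k := by
    have hle : ∀ n, ‖ite (n = n0) 0 (term (logMul^[m] (1 : ℕ → ℂ)) s n)‖ ≤
        ‖term (logMul^[m] (1 : ℕ → ℂ)) 2 n‖ / ((n0:ℝ) + 1) ^ k := by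
      intro n
      split_ifs with h
      · simp only [norm_zero]; positivity
      · rcases Nat.eq_zero_or_pos n with h0 | h0
        · simp [h0]
        · rcases lt_or_ge n n0 with h2 | h2
          · have h3 := hz n h0.ne' h2
            rw [term_of_ne_zero h0.ne', coef, h3, zero_div, norm_zero]
            positivity
          · rw [hterm]
            have h4 : (n0:ℝ) + 1 ≤ n := by exact_mod_cast (by omega : n0 + 1 ≤ n)
            gcongr
    have hs2 : Summable (fun n => ‖term (logMul^[m] (1 : ℕ → ℂ)) 2 n‖ / ((n0:ℝ) + 1) ^ k) :=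
      (summ m (by simp)).div_const _
    calc _ ≤ ∑' n, ‖term (logMul^[m] (1 : ℕ → ℂ)) 2 n‖ / ((n0:ℝ) + 1) ^ k :=
          tsum_of_norm_bounded hs2.hasSum hle
      _ = S m / ((n0:ℝ) + 1) ^ k := by rw [tsum_div_const]; rfl
  have h2 : ‖term (logMul^[m] (1 : ℕ → ℂ)) s n0‖ = t / (n0:ℝ) ^ k := hterm n0
  have h3 := norm_sub_le_norm_add (term (logMul^[m] (1 : ℕ → ℂ)) s n0)
    (∑' n, ite (n = n0) 0 (term (logMul^[m] (1 : ℕ → ℂ)) s n))
  linarith

/-- growth -/
theorem growth {δ : ℝ} (hδ : 0 < δ) {s : ℂ} (hs : δ ≤ s.re) (hi : 1 ≤ s.im) :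
    ‖riemannZeta s‖ ≤ 2 + ‖s‖ / δ := by
  have hs0 : 0 < s.re := by linarith
  have hs1 : s ≠ 1 := by intro h; rw [h] at hi; norm_num at hi
  rw [H388LH.zeta_eq hs0 hs1]
  have h1 := H388LH.fract_int_bound hs0
  have hn2 : 1 ≤ ‖s - 1‖ := by
    have := Complex.im_le_norm (s - 1)
    simp at this
    linarith
  have h2 : ‖1 / (s - 1)‖ ≤ 1 := by
    rw [norm_div, norm_one]
    exact div_le_one_of_le₀ hn2 (norm_nonneg _)
  have h3 : 1 / s.re ≤ 1 / δ := one_div_le_one_div_of_le hδ hs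
  have h4 : ‖s * ∫ u in Ioi (1 : ℝ), ((Int.fract u : ℝ) : ℂ) * (u : ℂ) ^ (-s - 1)‖ ≤ ‖s‖ / δ := by
    rw [norm_mul, div_eq_mul_one_div]
    exact mul_le_mul_of_nonneg_left (h1.trans h3) (norm_nonneg _)
  have h5 : ‖(1:ℂ) + 1 / (s - 1)‖ ≤ 2 := (norm_add_le _ _).trans (by rw [norm_one]; linarith)
  exact (norm_sub_le _ _).trans (add_le_add h5 h4)

/-- growth of zeta and of all the derivatives, in a strip. -/
theorem growthT {σ R : ℝ} (hσ : 0 < σ) (m : ℕ) : ∃ κ K : ℝ, 0 < κ ∧ κ ≤ 1 / 8 ∧ 1 ≤ K ∧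
    ∀ T : ℝ, 2 ≤ T → R ≤ T →
      (∀ s : ℂ, σ ≤ s.re → s.re ≤ R → s.im ∈ Icc T (2 * T) →
        (∀ z ∈ ball s (2 * κ), z ≠ 1 ∧ ‖riemannZeta z‖ ≤ K * T) ∧ ‖Z m s‖ ≤ K * T) := by
  set κ : ℝ := min σ 1 / 8 with hκ
  have hm : 0 < min σ 1 := lt_min hσ one_pos
  have hκ0 : 0 < κ := by positivity
  have hκ1 : κ ≤ 1 / 8 := by rw [hκ]; gcongr; exact min_le_right _ _
  have hκ2 : κ ≤ σ / 8 := by rw [hκ]; gcongr; exact min_le_left _ _
  set K1 : ℝ := 2 + 8 / σ with hK1
  have hK1p : 2 ≤ K1 := by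
    have : 0 < 8 / σ := by positivity
    linarith
  have hpow : 0 < κ ^ m := by positivity
  refine ⟨κ, K1 + m.factorial * K1 / κ ^ m, hκ0, hκ1, ?_, ?_⟩
  · have : 0 ≤ m.factorial * K1 / κ ^ m := by positivity
    linarith
  intro T hT hRT s hs1 hs2 hs3
  have hb : ∀ z ∈ ball s (2 * κ), z ≠ 1 ∧ ‖riemannZeta z‖ ≤ K1 * T := by
    intro z hz
    rw [mem_ball, dist_eq_norm] at hz
    have h1 := abs_le.mp ((abs_re_le_norm (z - s)).trans hz.le)
    have h2 := abs_le.mp ((abs_im_le_norm (z - s)).trans hz.le)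
    simp only [sub_re, sub_im] at h1 h2
    have hzr : σ / 2 ≤ z.re := by linarith [h1.1]
    have hzi : 1 ≤ z.im := by linarith [h2.1, hs3.1]
    refine ⟨by intro h; rw [h] at hzi; norm_num at hzi, ?_⟩
    have h3 := growth (half_pos hσ) hzr hzi
    have h4 : ‖z‖ ≤ 4 * T := by
      have h5 := Complex.norm_le_abs_re_add_abs_im z
      rw [abs_of_pos (by linarith : 0 < z.re), abs_of_pos (by linarith : 0 < z.im)] at h5
      linarith [h1.2, h2.2, hs3.2]
    calc ‖riemannZeta z‖ ≤ 2 + ‖z‖ / (σ / 2) := h3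
      _ ≤ 2 * T + (4 * T) / (σ / 2) := by
          apply add_le_add (by linarith)
          gcongr
      _ = K1 * T := by rw [hK1]; field_simp; ring
  have hKT : 0 ≤ m.factorial * K1 / κ ^ m * T := by positivity
  refine ⟨fun z hz => ⟨(hb z hz).1, ?_⟩, ?_⟩
  · have := (hb z hz).2
    linarith
  · have hcb : closedBall s κ ⊆ ball s (2 * κ) := closedBall_subset_ball (by linarith)
    have h6 := Complex.norm_iteratedDeriv_le_of_forall_mem_sphere_norm_le (f := riemannZeta)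
      (c := s) (R := κ) (C := K1 * T) m hκ0 ?_ ?_
    · calc ‖Z m s‖ ≤ m.factorial * (K1 * T) / κ ^ m := h6
        _ = m.factorial * K1 / κ ^ m * T := by ring
        _ ≤ _ := by
          have : 0 ≤ K1 * T := by positivity
          linarith
    · apply DifferentiableOn.diffContOnCl
      intro z hz
      have hz' := hcb (Metric.closure_ball_subset_closedBall hz)
      exact (differentiableAt_riemannZeta (hb z hz').1).differentiableWithinAt
    · intro z hz
      exact (hb z (hcb (sphere_subset_closedBall hz))).2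

end Pool.Agent.Q9.MZ
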