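import Mathlib
import Pool.Agent.Q9.MZ.B

open Complex Set Metric LSeries Filter

namespace Pool.Agent.Q9.MZ

/-- the maximum of `|ζ^(m)(σ+it)|` over `T ≤ t ≤ 2T` -/
noncomputable def Mx (m : ℕ) (σ T : ℝ) : ℝ :=
  sSup ((fun t : ℝ => ‖iteratedDeriv m riemannZeta (σ + t * I)‖) '' Icc T (2 * T))

theorem Mx_le {m : ℕ} {σ T B : ℝ} (hT : 0 ≤ T)
    (h : ∀ t ∈ Icc T (2 * T), ‖Z m (σ + t * I)‖ ≤ B) : Mx m σ T ≤ B := by
  apply csSup_le
  · exact ⟨_, T, ⟨le_rfl, by linarith⟩, rfl⟩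
  · rintro _ ⟨t, ht, rfl⟩
    exact h t ht

theorem le_Mx {m : ℕ} {σ T t : ℝ} (hT : 1 ≤ T) (ht : t ∈ Icc T (2 * T)) :
    ‖Z m (σ + t * I)‖ ≤ Mx m σ T := by
  apply le_csSup
  · have hc : ContinuousOn (fun t : ℝ => ‖iteratedDeriv m riemannZeta (σ + t * I)‖)
        (Icc T (2 * T)) := by
      intro u hu
      apply ContinuousAt.continuousWithinAt
      apply ContinuousAt.norm
      have h1 : ((σ : ℂ) + u * I) ≠ 1 := by
        intro h
        have := congrArg Complex.im h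
        simp at this
        linarith [hu.1]
      have h2 := (hasDeriv m h1).continuousAt
      exact ContinuousAt.comp (f := fun t : ℝ => (σ : ℂ) + t * I) (g := Z m) h2 (by fun_prop)
    exact (isCompact_Icc.image_of_continuousOn hc).bddAbove
  · exact ⟨t, ht, rfl⟩

theorem Mx_nonneg {m : ℕ} {σ T : ℝ} (hT : 1 ≤ T) : 0 ≤ Mx m σ T :=
  (norm_nonneg _).trans (le_Mx hT ⟨le_rfl, by linarith⟩)

/-- the maxima are bounded below -/
theorem Mx_lower {σ : ℝ} (hσ : 0 < σ) (m : ℕ) : ∃ c T0 : ℝ, 0 < c ∧ 1 ≤ T0 ∧ ∀ T : ℝ, T0 ≤ T →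
    c ≤ Mx m σ T := by
  obtain ⟨k, hk, c, hc, hlow⟩ := lowerR m (Nat.ceil σ)
  have hk' : σ ≤ k := (Nat.le_ceil σ).trans (by exact_mod_cast hk)
  set R : ℝ := 2 + k with hR
  obtain ⟨κ, K, hκ, hκ1, hK, hgr⟩ := growthT (R := R + 1) hσ m
  set p : ℝ := R - σ with hp
  have hp0 : 0 < p := by rw [hp, hR]; linarith
  -- choose `a`
  obtain ⟨a, ha0, ha⟩ : ∃ a : ℝ, 0 ≤ a ∧ S m * Real.exp (1 ^ 2 - a * 1) ≤ c / 3 := by
    have h1 : Tendsto (fun a : ℝ => S m * Real.exp (1 ^ 2 - a * 1)) atTop (nhds (S m * 0)) := by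
      apply Tendsto.const_mul
      apply Real.tendsto_exp_atBot.comp
      simp only [mul_one, sub_eq_add_neg]
      exact tendsto_atBot_add_const_left _ _ tendsto_neg_atTop_atBot
    rw [mul_zero] at h1
    have h2 := (h1.eventually (gt_mem_nhds (show 0 < c / 3 by positivity))).and
      (eventually_ge_atTop 0)
    obtain ⟨a, h3, h4⟩ := h2.exists
    exact ⟨a, h4, h3.le⟩
  have hlim : Tendsto (fun T : ℝ => K * T * Real.exp (p ^ 2 + 1 ^ 2 + a * p - (T / 2) ^ 2)) atTop
      (nhds 0) := by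
    have h1 : Tendsto (fun T : ℝ => (K * Real.exp (p ^ 2 + 1 ^ 2 + a * p)) *
        (T ^ 1 * Real.exp (-T))) atTop (nhds ((K * Real.exp (p ^ 2 + 1 ^ 2 + a * p)) * 0)) :=
      (Real.tendsto_pow_mul_exp_neg_atTop_nhds_zero 1).const_mul _
    rw [mul_zero] at h1
    apply squeeze_zero' _ _ h1
    · filter_upwards [eventually_ge_atTop 0] with T hT
      positivity
    · filter_upwards [eventually_ge_atTop 4] with T hT
      rw [show K * T * Real.exp (p ^ 2 + 1 ^ 2 + a * p - (T / 2) ^ 2) =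
        (K * Real.exp (p ^ 2 + 1 ^ 2 + a * p)) * (T ^ 1 * Real.exp (-(T / 2) ^ 2)) by
          rw [sub_eq_add_neg, Real.exp_add]
          rw [show -(T / 2) ^ 2 = -((T / 2) ^ 2) by ring]
          ring]
      gcongr
      nlinarith
  have hev := (hlim.eventually (gt_mem_nhds (show 0 < c / 3 by positivity)))
  obtain ⟨T1, hT1⟩ := (eventually_atTop.mp hev)
  refine ⟨c / 3 * Real.exp (-(p ^ 2 + a * p)), max (max 2 (R + 1)) T1, by positivity,
    (by norm_num : (1:ℝ) ≤ 2).trans ((le_max_left _ _).trans (le_max_left _ _)), ?_⟩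
  intro T hT
  have hT2 : 2 ≤ T := (le_max_left _ _).trans ((le_max_left _ _).trans hT)
  have hTR : R + 1 ≤ T := (le_max_right _ _).trans ((le_max_left _ _).trans hT)
  have hTT : T1 ≤ T := (le_max_right _ _).trans hT
  have h3 := hT1 T hTT
  have hW := Mx_nonneg (m := m) (σ := σ) (T := T) (by linarith)
  have him : ∀ s : ℂ, s.im ∈ Icc (3 * T / 2 - T / 2) (3 * T / 2 + T / 2) →
      s.im ∈ Icc T (2 * T) := by
    intro s hs
    refine ⟨by linarith [hs.1], by linarith [hs.2]⟩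
  have key := rect (g := Z m) (x1 := R) (v := 3 * T / 2) (p := p) (q := 1) (h := T / 2)
    (W := Mx m σ T) (C := S m) (M := K * T) (a := a) hp0.le one_pos (by linarith) ha0 hW
    (S_nonneg m) (by positivity) ?_ ?_ ?_ ?_
  · have h4 : c ≤ ‖Z m (R + (3 * T / 2 : ℝ) * I)‖ := by
      apply hlow
      simp [hR]
    have h5 : 2 / 3 * c ≤ Mx m σ T * Real.exp (p ^ 2 + a * p) + c / 3 := by
      have := h4.trans key
      linarith
    have h6 : c / 3 ≤ Mx m σ T * Real.exp (p ^ 2 + a * p) := by linarith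
    have h7 := mul_le_mul_of_nonneg_right h6 (Real.exp_pos (-(p ^ 2 + a * p))).le
    rwa [mul_assoc (Mx m σ T), ← Real.exp_add, add_neg_cancel, Real.exp_zero, mul_one] at h7
  · intro s _ hs
    have h1 := him s hs
    refine (hasDeriv m ?_).differentiableAt
    intro h
    rw [h] at h1
    simp at h1
    linarith [h1.1]
  · intro s hs1 hs2
    have h1 := le_Mx (m := m) (σ := σ) (by linarith : 1 ≤ T) (him s hs2)
    convert h1 using 3
    apply Complex.ext
    · simp [hs1, hp]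
    · simp
  · intro s hs1 hs2
    apply upperR
    rw [hs1, hR]
    have : (0:ℝ) ≤ k := Nat.cast_nonneg _
    linarith
  · intro s hs1 hs2
    apply (hgr T hT2 hTR s _ _ (him s hs2)).2
    · have := hs1.1
      rw [hp] at this
      linarith
    · exact hs1.2

/-- the upper bound -/
theorem upper {σ : ℝ} (hσ : 0 < σ) (m : ℕ) : ∃ K T0 : ℝ, 0 < K ∧ ∀ T : ℝ, T0 ≤ T →
    Mx m σ T ≤ K * Real.log T ^ (2 * m) * Mx 0 σ T := by
  obtain ⟨c, T1, hc, hT1, hlow⟩ := Mx_lower hσ 0
  obtain ⟨κ, K, hκ, hκ1, hK, hgr⟩ := growthT (R := σ) hσ m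
  refine ⟨m.factorial * Real.exp 4 * (4 / κ) ^ m, max (max (max 2 σ) T1) (max (Real.exp 1) (K / c)),
    by positivity, ?_⟩
  intro T hT
  have hT2 : 2 ≤ T := (le_max_left _ _).trans ((le_max_left _ _).trans ((le_max_left _ _).trans hT))
  have hTs : σ ≤ T := (le_max_right _ _).trans ((le_max_left _ _).trans
    ((le_max_left _ _).trans hT))
  have hTT : T1 ≤ T := (le_max_right _ _).trans ((le_max_left _ _).trans hT)
  have hTe : Real.exp 1 ≤ T := (le_max_left _ _).trans ((le_max_right _ _).trans hT)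
  have hTK : K / c ≤ T := (le_max_right _ _).trans ((le_max_right _ _).trans hT)
  have hV := hlow T hTT
  have hV0 : 0 < Mx 0 σ T := hc.trans_le hV
  have hlog : 1 ≤ Real.log T := by
    rw [Real.le_log_iff_exp_le (by linarith)]; exact hTe
  apply Mx_le (by linarith)
  intro t ht
  set s0 : ℂ := σ + t * I with hs0
  have hre : s0.re = σ := by simp [hs0]
  have him : s0.im = t := by simp [hs0]
  have hg := hgr T hT2 hTs s0 hre.ge hre.le (by rw [him]; exact ht)
  -- choose the direction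
  obtain ⟨e, he1, he2⟩ : ∃ e : ℝ, (e = 1 ∨ e = -1) ∧ ∀ u ∈ Icc (0:ℝ) κ, t + e * u ∈
      Icc T (2 * T) := by
    rcases le_total t (3 * T / 2) with h | h
    · refine ⟨1, Or.inl rfl, fun u hu => ⟨by linarith [hu.1, ht.1], by linarith [hu.2]⟩⟩
    · refine ⟨-1, Or.inr rfl, fun u hu => ⟨by linarith [hu.2], by linarith [hu.1, ht.2]⟩⟩
  have key := slit_deriv (F := riemannZeta) (s0 := s0) (ε := e * I) (κ := κ) (M := K * T)
    (V := Mx 0 σ T) (l := 2 * Real.log T) (by rcases he1 with h | h <;> simp [h]) hκ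
    (fun z hz => differentiableAt_riemannZeta (hg.1 z hz).1) (fun z hz => (hg.1 z hz).2) ?_ hV0
    ?_ (by linarith) m
  · refine key.trans (le_of_eq ?_)
    have hl0 : Real.log T ≠ 0 := by linarith
    rw [div_pow, div_div_eq_mul_div, div_pow, mul_pow, pow_mul, ← pow_mul (Real.log T) 2 m]
    rw [mul_pow, ← pow_mul, ← pow_mul]
    norm_num
    field_simp
    rw [pow_mul]
    norm_num
  · intro u hu
    have h1 := le_Mx (m := 0) (σ := σ) (by linarith : 1 ≤ T) (he2 u hu)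
    simp only [Z, iteratedDeriv_zero] at h1
    convert h1 using 3
    rw [hs0]
    push_cast
    ring
  · have h1 : Real.exp (2 * Real.log T) = T * T := by
      rw [two_mul, Real.exp_add, Real.exp_log (by linarith)]
    rw [h1]
    have h2 : K ≤ Mx 0 σ T * T := by
      rw [div_le_iff₀ hc] at hTK
      nlinarith
    nlinarith

end Pool.Agent.Q9.MZ
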