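import Mathlib
import Pool.Agent.Q9.MZ.C

open Complex Set Metric LSeries Filter

namespace Pool.Agent.Q9.MZ

theorem exp_log_sq {T : ℝ} (hT : Real.exp 1 ≤ T) :
    T * Real.exp (-(Real.log T ^ 2)) ≤ 1 := by
  have hT0 : 0 < T := (Real.exp_pos 1).trans_le hT
  have hlog : 1 ≤ Real.log T := by rwa [Real.le_log_iff_exp_le hT0]
  have h1 : T * Real.exp (-(Real.log T ^ 2)) = Real.exp (Real.log T - Real.log T ^ 2) := by
    rw [sub_eq_add_neg, Real.exp_add, Real.exp_log hT0]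
  rw [h1, Real.exp_le_one_iff]
  nlinarith

/-- the bound inside, for the derivative of order `m` to the right of the line -/
theorem inside {σ : ℝ} (hσ : 0 < σ) (m : ℕ) : ∃ R K T0 : ℝ, σ ≤ R ∧ 2 ≤ R ∧ 0 ≤ K ∧ 2 ≤ T0 ∧
    Real.exp 1 ≤ T0 ∧
    (∃ c : ℝ, 0 < c ∧ ∀ T : ℝ, T0 ≤ T → c ≤ Mx m σ T) ∧
    ∀ T : ℝ, T0 ≤ T → ∀ v ∈ Icc (T + Real.log T) (2 * T - Real.log T),
    ∀ x ∈ Icc σ R, ‖Z m (x + v * I)‖ ≤ K * Mx m σ T := by
  obtain ⟨c, T1, hc, hT1, hlow⟩ := Mx_lower hσ m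
  set R : ℝ := 2 + σ with hR
  obtain ⟨κ, K, hκ, hκ1, hK, hgr⟩ := growthT (R := R + 1) hσ m
  set P : ℝ := R + 1 - σ with hP
  have hS := S_nonneg m
  set E : ℝ := Real.exp (2 * P ^ 2) with hE
  have hE0 : 0 < E := Real.exp_pos _
  have hKc : 0 ≤ E * (1 + (S m + K) / c) := by positivity
  refine ⟨R, E * (1 + (S m + K) / c), max (max 2 (R + 1)) (max T1 (Real.exp 1)), by linarith,
    by linarith, hKc, (le_max_left _ _).trans (le_max_left _ _),
    (le_max_right _ _).trans (le_max_right _ _), ⟨c, hc, fun T hT => hlow T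
      ((le_max_left _ _).trans ((le_max_right _ _).trans hT))⟩, ?_⟩
  intro T hT v hv x hx
  have hT2 : 2 ≤ T := (le_max_left _ _).trans ((le_max_left _ _).trans hT)
  have hTR : R + 1 ≤ T := (le_max_right _ _).trans ((le_max_left _ _).trans hT)
  have hTT : T1 ≤ T := (le_max_left _ _).trans ((le_max_right _ _).trans hT)
  have hTe : Real.exp 1 ≤ T := (le_max_right _ _).trans ((le_max_right _ _).trans hT)
  have hlog : 1 ≤ Real.log T := by rwa [Real.le_log_iff_exp_le (by linarith)]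
  have hW := Mx_nonneg (m := m) (σ := σ) (T := T) (by linarith)
  have hWc := hlow T hTT
  have him : ∀ s : ℂ, s.im ∈ Icc (v - Real.log T) (v + Real.log T) → s.im ∈ Icc T (2 * T) := by
    intro s hs
    refine ⟨by linarith [hs.1, hv.1], by linarith [hs.2, hv.2]⟩
  have hp0 : 0 ≤ x - σ := by linarith [hx.1]
  have hq0 : 0 < R + 1 - x := by linarith [hx.2]
  have key := rect (g := Z m) (x1 := x) (v := v) (p := x - σ) (q := R + 1 - x) (h := Real.log T)
    (W := Mx m σ T) (C := S m) (M := K * T) (a := 0) hp0 hq0 (by linarith) le_rfl hW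
    hS (by positivity) ?_ ?_ ?_ ?_
  · have hx1 := hx.1
    have hx2 := hx.2
    have hp2 : (x - σ) ^ 2 ≤ P ^ 2 := by
      apply pow_le_pow_left₀ hp0; linarith
    have hq2 : (R + 1 - x) ^ 2 ≤ P ^ 2 := by
      apply pow_le_pow_left₀ hq0.le; linarith
    have e1 : Real.exp ((x - σ) ^ 2 + 0 * (x - σ)) ≤ E := by
      apply Real.exp_le_exp.mpr; nlinarith [sq_nonneg P]
    have e2 : Real.exp ((R + 1 - x) ^ 2 - 0 * (R + 1 - x)) ≤ E := by
      apply Real.exp_le_exp.mpr; nlinarith [sq_nonneg P]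
    have e3 : K * T * Real.exp ((x - σ) ^ 2 + (R + 1 - x) ^ 2 + 0 * (x - σ) - Real.log T ^ 2) ≤
        K * E := by
      rw [sub_eq_add_neg, Real.exp_add]
      have h1 : Real.exp ((x - σ) ^ 2 + (R + 1 - x) ^ 2 + 0 * (x - σ)) ≤ E := by
        apply Real.exp_le_exp.mpr; nlinarith
      have h2 := exp_log_sq hTe
      calc _ = K * (Real.exp ((x - σ) ^ 2 + (R + 1 - x) ^ 2 + 0 * (x - σ)) *
            (T * Real.exp (-(Real.log T ^ 2)))) := by ring
        _ ≤ K * (E * 1) := by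
            apply mul_le_mul_of_nonneg_left _ (by linarith)
            exact mul_le_mul h1 h2 (by positivity) hE0.le
        _ = K * E := by ring
    have e4 : S m + K ≤ (S m + K) / c * Mx m σ T := by
      rw [div_mul_eq_mul_div, le_div_iff₀ hc]
      exact mul_le_mul_of_nonneg_left hWc (by linarith)
    calc ‖Z m (x + v * I)‖ ≤ _ := key
      _ ≤ Mx m σ T * E + S m * E + K * E :=
          add_le_add (add_le_add (mul_le_mul_of_nonneg_left e1 hW)
            (mul_le_mul_of_nonneg_left e2 hS)) e3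
      _ = E * (Mx m σ T + (S m + K)) := by ring
      _ ≤ E * (Mx m σ T + (S m + K) / c * Mx m σ T) :=
          mul_le_mul_of_nonneg_left (by linarith) hE0.le
      _ = _ := by ring
  · intro s _ hs
    have h1 := him s hs
    refine (hasDeriv m ?_).differentiableAt
    intro h
    rw [h] at h1
    simp at h1
    linarith [h1.1]
  · intro s hs1 hs2
    have h1 := le_Mx (m := m) (σ := σ) (by linarith : 1 ≤ T) (him s hs2)
    convert h1 using 3
    apply Complex.ext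
    · simp [hs1]
    · simp
  · intro s hs1 hs2
    apply upperR
    rw [hs1, hR]
    linarith
  · intro s hs1 hs2
    apply (hgr T hT2 hTR s _ _ (him s hs2)).2
    · have := hs1.1
      linarith
    · linarith [hs1.2]

/-- a step down in the order of the derivative -/
theorem down {σ R v : ℝ} (hR : 2 ≤ R) (hσR : σ ≤ R) (hv : 1 ≤ v) (j : ℕ) {B : ℝ}
    (h : ∀ x ∈ Icc σ R, ‖Z (j + 1) (x + v * I)‖ ≤ B) :
    ∀ x ∈ Icc σ R, ‖Z j (x + v * I)‖ ≤ S j + B * (R - σ) := by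
  intro x hx
  have hB : 0 ≤ B := (norm_nonneg _).trans (h x hx)
  have hne : ∀ x : ℝ, ((x : ℂ) + v * I) ≠ 1 := by
    intro x h
    have := congrArg Complex.im h
    simp at this
    linarith
  have h1 := Convex.norm_image_sub_le_of_norm_hasDerivWithin_le (𝕜 := ℝ)
    (f := fun x : ℝ => Z j (x + v * I)) (f' := fun x : ℝ => Z (j + 1) (x + v * I)) (C := B)
    (s := Icc σ R) (x := R) (y := x) (fun y hy => by
      have h2 := hasDeriv j (hne y)
      have h3 : HasDerivAt (fun x : ℝ => ((x : ℂ) + v * I)) 1 y :=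
        (Complex.ofRealCLM.hasDerivAt (x := y)).add_const _
      have h4 := HasDerivAt.comp_of_eq (h₂ := Z j) (h := fun x : ℝ => ((x : ℂ) + v * I)) y h2 h3 rfl
      simp only [mul_one] at h4
      exact h4.hasDerivWithinAt) h (convex_Icc _ _) ⟨hσR, le_rfl⟩ hx
  have h5 : ‖Z j (R + v * I)‖ ≤ S j := upperR j (by simpa using hR)
  have h6 : ‖x - R‖ ≤ R - σ := by
    rw [Real.norm_eq_abs, abs_le]
    constructor <;> linarith [hx.1, hx.2]
  have h7 := norm_sub_norm_le (Z j (x + v * I)) (Z j (R + v * I))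
  have h8 : B * ‖x - R‖ ≤ B * (R - σ) := mul_le_mul_of_nonneg_left h6 hB
  linarith

theorem down_all {σ R : ℝ} (hR : 2 ≤ R) (hσR : σ ≤ R) {c : ℝ} (hc : 0 < c) (m : ℕ) :
    ∀ K : ℝ, 0 ≤ K → ∃ K' : ℝ, 0 ≤ K' ∧ ∀ W v : ℝ, c ≤ W → 1 ≤ v →
      (∀ x ∈ Icc σ R, ‖Z m (x + v * I)‖ ≤ K * W) →
      ∀ x ∈ Icc σ R, ‖Z 0 (x + v * I)‖ ≤ K' * W := by
  induction m with
  | zero =>
    intro K hK
    exact ⟨K, hK, fun W v _ _ h => h⟩
  | succ m ih =>
    intro K hK
    have hS := S_nonneg m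
    have hRs : 0 ≤ R - σ := by linarith
    obtain ⟨K', hK', h'⟩ := ih (S m / c + K * (R - σ)) (by positivity)
    refine ⟨K', hK', fun W v hW hv h => h' W v hW hv ?_⟩
    intro x hx
    have h1 := down hR hσR hv m h x hx
    have h2 : S m ≤ S m / c * W := by
      rw [div_mul_eq_mul_div, le_div_iff₀ hc]
      exact mul_le_mul_of_nonneg_left hW hS
    calc _ ≤ _ := h1
      _ ≤ S m / c * W + K * W * (R - σ) := by linarith
      _ = _ := by ring

/-- no loss away from the end points -/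
theorem lower_inside {σ : ℝ} (hσ : 0 < σ) (m : ℕ) : ∃ K T0 : ℝ, 0 ≤ K ∧ ∀ T : ℝ, T0 ≤ T →
    ∀ t ∈ Icc (T + Real.log T) (2 * T - Real.log T),
      ‖riemannZeta (σ + t * I)‖ ≤ K * Mx m σ T := by
  obtain ⟨R, K, T1, hσR, hR, hK, hT12, hT1e, ⟨c, hc, hlow⟩, hin⟩ := inside hσ m
  obtain ⟨K', hK', hdn⟩ := down_all hR hσR hc m K hK
  refine ⟨K', T1, hK', ?_⟩
  intro T hT v hv
  have hlog : 1 ≤ Real.log T := by
    rw [Real.le_log_iff_exp_le (by linarith)]
    exact hT1e.trans hT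
  have h1 := hdn (Mx m σ T) v (hlow T hT) (by linarith [hv.1]) (hin T hT v hv) σ ⟨le_rfl, hσR⟩
  simpa [Z] using h1

theorem lower {σ : ℝ} (hσ : 0 < σ) (m : ℕ) : ∃ K T0 : ℝ, 0 < K ∧ ∀ T : ℝ, T0 ≤ T →
    Mx 0 σ T ≤ K * Real.log T ^ m * Mx m σ T := by
  obtain ⟨R, K, T1, hσR, hR, hK, hT12, hT1e, ⟨c, hc, hlow⟩, hin⟩ := inside hσ m
  obtain ⟨K', hK', hdn⟩ := down_all hR hσR hc m K hK
  -- `(m+1) log T ≤ T/2` for large `T`
  have hlim : Tendsto (fun T : ℝ => ((m + 1 : ℕ) : ℝ) * (Real.log T / T)) atTop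
      (nhds (((m + 1 : ℕ) : ℝ) * 0)) := by
    apply Tendsto.const_mul
    have := Real.tendsto_pow_log_div_mul_add_atTop 1 0 1 one_ne_zero
    simpa using this
  rw [mul_zero] at hlim
  obtain ⟨T2, hT2⟩ := eventually_atTop.mp
    (hlim.eventually (gt_mem_nhds (show (0:ℝ) < 1 / 2 by norm_num)))
  refine ⟨1 + 3 ^ m * K', max T1 T2, by positivity, ?_⟩
  intro T hT
  have hTT1 : T1 ≤ T := (le_max_left _ _).trans hT
  have hTT2 : T2 ≤ T := (le_max_right _ _).trans hT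
  have hT2' : 2 ≤ T := hT12.trans hTT1
  have hTe : Real.exp 1 ≤ T := hT1e.trans hTT1
  have hlog : 1 ≤ Real.log T := by rwa [Real.le_log_iff_exp_le (by linarith)]
  have hml : ((m : ℝ) + 1) * Real.log T ≤ T / 2 := by
    have h1 := (hT2 T hTT2).le
    rw [← mul_div_assoc, div_le_iff₀ (by linarith)] at h1
    push_cast at h1
    linarith
  set h : ℝ := Real.log T with hh
  set W : ℝ := Mx m σ T with hW
  have hWc := hlow T hTT1
  have hW0 : 0 < W := hc.trans_le hWc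
  have hins : ∀ v ∈ Icc (T + h) (2 * T - h), ‖Z 0 (σ + v * I)‖ ≤ K' * W := by
    intro v hv
    exact hdn W v hWc (by linarith [hv.1]) (hin T hTT1 v hv) σ ⟨le_rfl, hσR⟩
  apply Mx_le (by linarith)
  intro t ht
  have hm0 : 0 ≤ (m : ℝ) * h := by positivity
  obtain ⟨e, he1, he2, he3⟩ : ∃ e : ℝ, (e = 1 ∨ e = -1) ∧
      (∀ u ∈ Icc (0:ℝ) (m * h), t + e * u ∈ Icc T (2 * T)) ∧
      (∀ j : ℕ, 1 ≤ j → j ≤ m → t + e * (j * h) ∈ Icc (T + h) (2 * T - h)) := by
    rcases le_total t (3 * T / 2) with h0 | h0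
    · refine ⟨1, Or.inl rfl, fun u hu => ⟨by linarith [hu.1, ht.1], by nlinarith [hu.2]⟩, ?_⟩
      intro j hj1 hj2
      have h1 : (1:ℝ) ≤ j := by exact_mod_cast hj1
      have h2 : (j:ℝ) ≤ m := by exact_mod_cast hj2
      have h3 : 1 * h ≤ j * h := by gcongr
      have h4 : (j:ℝ) * h ≤ m * h := by gcongr
      refine ⟨by linarith [ht.1], by linarith⟩
    · refine ⟨-1, Or.inr rfl, fun u hu => ⟨by nlinarith [hu.2], by linarith [hu.1, ht.2]⟩, ?_⟩
      intro j hj1 hj2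
      have h1 : (1:ℝ) ≤ j := by exact_mod_cast hj1
      have h2 : (j:ℝ) ≤ m := by exact_mod_cast hj2
      have h3 : 1 * h ≤ j * h := by gcongr
      have h4 : (j:ℝ) * h ≤ m * h := by gcongr
      refine ⟨by linarith, by linarith [ht.2]⟩
  have hnI : ‖(e : ℂ) * I‖ = 1 := by rcases he1 with h | h <;> simp [h]
  have key := fd m (fun k u => ((e : ℂ) * I) ^ k * Z k (σ + (t + e * u) * I)) h W (K' * W)
    (by linarith) (by positivity) ?_ ?_ ?_
  · simp only [pow_zero, one_mul] at key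
    have h1 : ‖Z 0 (σ + t * I)‖ ≤ h ^ m * W + 3 ^ m * (K' * W) := by
      simpa using key
    have h2 : (1:ℝ) ≤ h ^ m := one_le_pow₀ hlog
    calc ‖Z 0 (σ + t * I)‖ ≤ h ^ m * W + 3 ^ m * (K' * W) := h1
      _ ≤ h ^ m * W + 3 ^ m * (K' * W) * h ^ m := by
          have : 0 ≤ 3 ^ m * (K' * W) := by positivity
          nlinarith
      _ = _ := by ring
  · intro k u hu
    have h1 := he2 u hu
    have hne : ((σ : ℂ) + (t + e * u) * I) ≠ 1 := by
      intro h
      have := congrArg Complex.im h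
      simp at this
      linarith [h1.1]
    have h2 := hasDeriv k hne
    have h3 : HasDerivAt (fun u : ℝ => ((σ : ℂ) + (t + e * u) * I)) (e * I) u := by
      have h4 : HasDerivAt (fun u : ℝ => (u : ℂ)) 1 u := Complex.ofRealCLM.hasDerivAt (x := u)
      have h5 := (((h4.const_mul (e : ℂ)).const_add (t : ℂ)).mul_const I).const_add (σ : ℂ)
      simpa using h5
    have h6 := HasDerivAt.comp_of_eq (h₂ := Z k)
      (h := fun u : ℝ => ((σ : ℂ) + (t + e * u) * I)) u h2 h3 rfl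
    have h7 := h6.const_mul (((e : ℂ) * I) ^ k)
    have h8 : ((e : ℂ) * I) ^ k * (Z (k + 1) (σ + (t + e * u) * I) * (e * I)) =
        ((e : ℂ) * I) ^ (k + 1) * Z (k + 1) (σ + (t + e * u) * I) := by
      rw [pow_succ]; ring
    rw [h8] at h7
    exact h7
  · intro u hu
    have h1 := le_Mx (m := m) (σ := σ) (by linarith : 1 ≤ T) (he2 u hu)
    show ‖((e : ℂ) * I) ^ m * Z m (σ + (t + e * u) * I)‖ ≤ W
    rw [norm_mul, norm_pow, hnI, one_pow, one_mul]
    convert h1 using 3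
    push_cast
    ring
  · intro j hj1 hj2
    have h1 := hins _ (he3 j hj1 hj2)
    simp only [pow_zero, one_mul]
    convert h1 using 3
    push_cast
    ring

end Pool.Agent.Q9.MZ
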